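import Pool.Agent.Helper8.LQ.B

/-! Package A4: the inverse of the Gaussian average. -/

set_option autoImplicit false

open Complex MeasureTheory Filter Topology

namespace Pool.Agent.Helper8.LQ

open Pool.Agent.Helper75.LQ

/-- the two dimensional density -/
theorem ga_mul {v : ℝ} (hv : 0 < v) (x y : ℝ) : ga v x * ga v y =
    ((Real.exp (-(1 / (2 * v)) * (x ^ 2 + y ^ 2)) / (2 * Real.pi * v) : ℝ) : ℂ) := by
  rw [ga_real, ga_real, ← Complex.ofReal_mul]
  congr 1
  rw [div_mul_div_comm, ← Real.exp_add, Real.mul_self_sqrt (by positivity)]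
  congr 2
  ring

theorem ga_neg (v : ℝ) (w : ℂ) : ga v (-w) = ga v w := by
  unfold ga
  rw [neg_sq]

theorem continuous_ga (v : ℝ) : Continuous fun w : ℂ => ga v w := by
  unfold ga
  fun_prop

noncomputable def kk (g : ℂ → ℂ) (v : ℝ) (p : ℝ × ℝ) : ℂ := g (p.1 + I * p.2) * (ga v p.1 * ga v p.2)

theorem continuous_kk {g : ℂ → ℂ} (hg : Differentiable ℂ g) (v : ℝ) : Continuous (kk g v) := by
  have h1 := hg.continuous
  have h2 := continuous_ga v
  unfold kk
  fun_prop

theorem norm_sq_xy (x y : ℝ) : ‖(x : ℂ) + I * y‖ ^ 2 = x ^ 2 + y ^ 2 := by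
  rw [← Complex.normSq_eq_norm_sq, Complex.normSq_apply]
  simp
  ring

theorem gr_gap {v a : ℝ} (hv : 0 < v) (ha : 32 * a * v ≤ 1) : 0 < 1 / (2 * v) - a := by
  have h1 : a ≤ 1 / (32 * v) := by
    rw [le_div_iff₀ (by positivity)]
    linarith
  have h2 : 1 / (32 * v) < 1 / (2 * v) := by
    apply one_div_lt_one_div_of_lt (by positivity)
    linarith
  linarith

theorem norm_kk_le {g : ℂ → ℂ} {v M a : ℝ} (hv : 0 < v)
    (h : ∀ z : ℂ, ‖g z‖ ≤ M * Real.exp (a * ‖z‖ ^ 2)) (x y : ℝ) :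
    ‖kk g v (x, y)‖ ≤ M / (2 * Real.pi * v) *
      Real.exp (-(1 / (2 * v) - a) * (x ^ 2 + y ^ 2)) := by
  unfold kk
  simp only
  rw [norm_mul, ga_mul hv, Complex.norm_real, Real.norm_of_nonneg (by positivity)]
  have h1 := h ((x : ℂ) + I * y)
  rw [norm_sq_xy] at h1
  refine (mul_le_mul_of_nonneg_right h1 (by positivity)).trans_eq ?_
  rw [show -(1 / (2 * v) - a) * (x ^ 2 + y ^ 2) =
    a * (x ^ 2 + y ^ 2) + -(1 / (2 * v)) * (x ^ 2 + y ^ 2) by ring, Real.exp_add]
  ring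

theorem integrable_kk {g : ℂ → ℂ} {v : ℝ} (hg : Differentiable ℂ g) (hv : 0 < v) (hG : Gr g v) :
    Integrable (kk g v) := by
  obtain ⟨M, a, hM, ha, hav, h⟩ := hG
  have hb := gr_gap hv hav
  have h1 := (integrable_exp_neg_mul_sq hb).mul_prod (integrable_exp_neg_mul_sq hb)
  refine (h1.const_mul (M / (2 * Real.pi * v))).mono' (continuous_kk hg v).aestronglyMeasurable
    (Eventually.of_forall fun p => ?_)
  obtain ⟨x, y⟩ := p
  refine (norm_kk_le hv h x y).trans_eq ?_
  simp only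
  rw [← Real.exp_add]
  congr 2
  ring

theorem F_eq {g : ℂ → ℂ} (v : ℝ) (y : ℝ) : F g v (I * y) * ga v y = ∫ x : ℝ, kk g v (x, y) := by
  have h1 : ∫ x : ℝ, kk g v (x, y) = ∫ x : ℝ, kk g v (-x, y) :=
    (integral_neg_eq_self (fun x : ℝ => kk g v (x, y)) volume).symm
  rw [h1]
  unfold F kk
  rw [← integral_mul_const]
  refine integral_congr_ae (Eventually.of_forall fun w => ?_)
  simp only [Complex.ofReal_neg, ga_neg]
  rw [show -(w : ℂ) + I * y = I * y - w by ring]
  ring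

/-- circles -/
theorem mean_circle {g : ℂ → ℂ} (hg : Differentiable ℂ g) (r : ℝ) :
    ∫ θ in Set.Ioo (-Real.pi) Real.pi, g ((r : ℂ) * cexp (θ * I)) = (2 * Real.pi) * g 0 := by
  have h1 : Real.circleAverage g 0 r = g 0 :=
    (hg.diffContOnCl : DiffContOnCl ℂ g (Metric.ball 0 |r|)).circleAverage
  rw [Real.circleAverage_def] at h1
  have h2 : Function.Periodic (fun θ : ℝ => g (circleMap 0 r θ)) (2 * Real.pi) := by
    intro θ
    simp only [periodic_circleMap 0 r θ]
  have h3 := h2.intervalIntegral_add_eq 0 (-Real.pi)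
  rw [zero_add, show -Real.pi + 2 * Real.pi = Real.pi by ring] at h3
  rw [h3, intervalIntegral.integral_of_le (by linarith [Real.pi_pos]),
    integral_Ioc_eq_integral_Ioo] at h1
  have h4 : ∫ θ in Set.Ioo (-Real.pi) Real.pi, g ((r : ℂ) * cexp (θ * I)) =
      ∫ θ in Set.Ioo (-Real.pi) Real.pi, g (circleMap 0 r θ) := by
    refine integral_congr_ae (Eventually.of_forall fun θ => ?_)
    simp [circleMap]
  rw [h4, ← h1]
  have hp : (Real.pi : ℂ) ≠ 0 := by exact_mod_cast Real.pi_ne_zero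
  rw [Complex.real_smul]
  push_cast
  field_simp

theorem st_a4 : St_A4 := by
  intro g v hg hv hG
  have hk := integrable_kk hg hv hG
  have hk' : Integrable (kk g v) ((volume : Measure ℝ).prod (volume : Measure ℝ)) := hk
  have hF : (fun w : ℝ => F g v (I * w) * ga v w) = fun y : ℝ => ∫ x : ℝ, kk g v (x, y) := by
    funext y
    exact F_eq v y
  rw [hF]
  refine ⟨hk'.integral_prod_right, ?_⟩
  rw [← integral_prod_symm (kk g v) hk']
  change g 0 = ∫ p : ℝ × ℝ, kk g v p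
  rw [← integral_comp_polarCoord_symm]
  have htar : polarCoord.target = Set.Ioi (0 : ℝ) ×ˢ Set.Ioo (-Real.pi) Real.pi := rfl
  rw [htar]
  have hsym : ∀ p : ℝ × ℝ, p.1 • kk g v (polarCoord.symm p) =
      ((p.1 * Real.exp (-(1 / (2 * v)) * p.1 ^ 2) / (2 * Real.pi * v) : ℝ) : ℂ) *
        g ((p.1 : ℂ) * cexp (p.2 * I)) := by
    rintro ⟨r, θ⟩
    have e : polarCoord.symm (r, θ) = (r * Real.cos θ, r * Real.sin θ) := rfl
    rw [e]
    unfold kk
    simp only
    rw [ga_mul hv]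
    have e1 : (r * Real.cos θ) ^ 2 + (r * Real.sin θ) ^ 2 = r ^ 2 := by
      have := Real.cos_sq_add_sin_sq θ
      linear_combination r ^ 2 * this
    rw [e1]
    have e2 : (((r * Real.cos θ : ℝ) : ℂ)) + I * ((r * Real.sin θ : ℝ) : ℂ) = (r : ℂ) * cexp (θ * I) := by
      rw [Complex.exp_mul_I]
      push_cast
      ring
    rw [e2, Complex.real_smul]
    push_cast
    ring
  rw [setIntegral_congr_fun (measurableSet_Ioi.prod measurableSet_Ioo) (fun p _ => hsym p)]
  have hint : IntegrableOn (fun p : ℝ × ℝ =>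
      ((p.1 * Real.exp (-(1 / (2 * v)) * p.1 ^ 2) / (2 * Real.pi * v) : ℝ) : ℂ) *
        g ((p.1 : ℂ) * cexp (p.2 * I))) (Set.Ioi (0 : ℝ) ×ˢ Set.Ioo (-Real.pi) Real.pi)
      ((volume : Measure ℝ).prod (volume : Measure ℝ)) := by
    obtain ⟨M, a, hM, ha, hav, h⟩ := hG
    have hb := gr_gap hv hav
    have h1 : IntegrableOn (fun p : ℝ × ℝ => (M / (2 * Real.pi * v) *
        (p.1 * Real.exp (-(1 / (2 * v) - a) * p.1 ^ 2))) * (1 : ℝ))
        (Set.Ioi (0 : ℝ) ×ˢ Set.Ioo (-Real.pi) Real.pi)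
        ((volume : Measure ℝ).prod (volume : Measure ℝ)) := by
      unfold IntegrableOn
      rw [← Measure.prod_restrict]
      refine Integrable.mul_prod (f := fun x : ℝ => M / (2 * Real.pi * v) *
        (x * Real.exp (-(1 / (2 * v) - a) * x ^ 2))) (g := fun _ : ℝ => (1 : ℝ)) ?_ ?_
      · exact ((integrable_mul_exp_neg_mul_sq hb).const_mul _).restrict
      · exact integrable_const _
    refine Integrable.mono' h1 ?_ ?_
    · have hgc := hg.continuous
      refine Continuous.aestronglyMeasurable ?_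
      fun_prop
    · refine (ae_restrict_mem (measurableSet_Ioi.prod measurableSet_Ioo)).mono fun p hp => ?_
      obtain ⟨r, θ⟩ := p
      obtain ⟨hr, -⟩ := hp
      simp only [Set.mem_Ioi] at hr ⊢
      rw [norm_mul, Complex.norm_real, Real.norm_of_nonneg (by positivity)]
      have h2 := h ((r : ℂ) * cexp (θ * I))
      have h3 : ‖(r : ℂ) * cexp (θ * I)‖ = r := by
        rw [norm_mul, Complex.norm_exp_ofReal_mul_I, Complex.norm_real, Real.norm_of_nonneg hr.le, mul_one]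
      rw [h3] at h2
      refine (mul_le_mul_of_nonneg_left h2 (by positivity)).trans_eq ?_
      rw [show -(1 / (2 * v) - a) * r ^ 2 = a * r ^ 2 + -(1 / (2 * v)) * r ^ 2 by ring, Real.exp_add]
      ring
  change g 0 = ∫ p in (Set.Ioi (0 : ℝ) ×ˢ Set.Ioo (-Real.pi) Real.pi), _
    ∂((volume : Measure ℝ).prod (volume : Measure ℝ))
  rw [setIntegral_prod _ hint]
  simp only [integral_const_mul, mean_circle hg]
  rw [integral_mul_const]
  have h5 : ∫ r in Set.Ioi (0 : ℝ), ((r * Real.exp (-(1 / (2 * v)) * r ^ 2) / (2 * Real.pi * v) : ℝ) : ℂ) =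
      1 / (2 * Real.pi) := by
    have hbC : 0 < ((1 / (2 * v) : ℝ) : ℂ).re := by
      rw [Complex.ofReal_re]; positivity
    have h6 := integral_mul_cexp_neg_mul_sq hbC
    have h7 : ∀ r : ℝ, ((r * Real.exp (-(1 / (2 * v)) * r ^ 2) / (2 * Real.pi * v) : ℝ) : ℂ) =
        ((r : ℂ) * cexp (-((1 / (2 * v) : ℝ) : ℂ) * (r : ℂ) ^ 2)) * (1 / (2 * Real.pi * v)) := by
      intro r
      push_cast
      ring
    simp only [h7]
    rw [integral_mul_const, h6]
    have hvC : (v : ℂ) ≠ 0 := by exact_mod_cast hv.ne'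
    have hp : (Real.pi : ℂ) ≠ 0 := by exact_mod_cast Real.pi_ne_zero
    push_cast
    field_simp
  rw [h5]
  have hp : (Real.pi : ℂ) ≠ 0 := by exact_mod_cast Real.pi_ne_zero
  field_simp

end Pool.Agent.Helper8.LQ
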