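import Pool.Agent.Helper75.LQ.Sts

/-! Package B: Hermite numbers. -/

set_option autoImplicit false

open Complex MeasureTheory Filter Topology

namespace Pool.Agent.Helper8.LQ

open Pool.Agent.Helper75.LQ

/-- the density on the real line -/
theorem ga_real (v d : ℝ) : ga v d =
    ((Real.exp (-(1 / (2 * v)) * d ^ 2) / Real.sqrt (2 * Real.pi * v) : ℝ) : ℂ) := by
  unfold ga
  push_cast
  congr 2
  ring

theorem integrable_pow_ga {v : ℝ} (hv : 0 < v) (k : ℕ) :
    Integrable (fun d : ℝ => (d : ℂ) ^ k * ga v d) := by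
  have hb : 0 < 1 / (2 * v) := by positivity
  have h1 : Integrable fun x : ℝ => x ^ ((k : ℕ) : ℝ) * Real.exp (-(1 / (2 * v)) * x ^ 2) :=
    integrable_rpow_mul_exp_neg_mul_sq hb (by
      have : (0 : ℝ) ≤ k := by positivity
      linarith)
  have h2 : Integrable fun x : ℝ => ((x ^ ((k : ℕ) : ℝ) * Real.exp (-(1 / (2 * v)) * x ^ 2) /
      Real.sqrt (2 * Real.pi * v) : ℝ) : ℂ) :=
    (h1.div_const (Real.sqrt (2 * Real.pi * v))).ofReal
  refine h2.congr (Eventually.of_forall fun d => ?_)
  simp only [ga_real, Real.rpow_natCast]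
  rw [mul_div_assoc, Complex.ofReal_mul, Complex.ofReal_pow]

theorem integrable_hn {v : ℝ} (hv : 0 < v) (y : ℝ) (k : ℕ) :
    Integrable (fun d : ℝ => ((y : ℂ) - I * d) ^ k * ga v d) := by
  have h1 : ∀ d : ℝ, ((y : ℂ) - I * d) ^ k * ga v d =
      ∑ m ∈ Finset.range (k + 1), ((y : ℂ) ^ m * (-I) ^ (k - m) * (k.choose m)) *
        ((d : ℂ) ^ (k - m) * ga v d) := by
    intro d
    rw [sub_eq_add_neg, add_pow, Finset.sum_mul]
    refine Finset.sum_congr rfl fun m _ => ?_
    rw [show -(I * (d : ℂ)) = (-I) * d by ring, mul_pow]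
    ring
  simp only [h1]
  exact integrable_finsetSum _ fun m _ => (integrable_pow_ga hv _).const_mul _

theorem integral_ga {v : ℝ} (hv : 0 < v) : ∫ d : ℝ, ga v d = 1 := by
  simp only [ga_real]
  rw [integral_complex_ofReal, integral_div, integral_gaussian]
  have h1 : Real.pi / (1 / (2 * v)) = 2 * Real.pi * v := by field_simp
  rw [h1, div_self (Real.sqrt_ne_zero'.2 (by positivity))]
  simp

theorem hasDerivAt_ofReal' (d : ℝ) : HasDerivAt (fun d : ℝ => (d : ℂ)) 1 d := by
  simpa using (hasDerivAt_id (d : ℂ)).comp_ofReal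

theorem hasDerivAt_ga {v : ℝ} (hv : 0 < v) (d : ℝ) :
    HasDerivAt (fun d : ℝ => ga v d) (-(d : ℂ) / v * ga v d) d := by
  have h1 : HasDerivAt (fun d : ℝ => (-((d : ℂ) ^ 2) / (2 * v) : ℂ)) (-(2 * d) / (2 * v) : ℂ) d := by
    have := (((hasDerivAt_ofReal' d).pow 2).neg).div_const (2 * (v : ℂ))
    simpa using this
  have h2 := (h1.cexp).div_const (Real.sqrt (2 * Real.pi * v) : ℂ)
  have : (v : ℂ) ≠ 0 := by exact_mod_cast hv.ne'
  unfold ga
  refine h2.congr_deriv ?_
  field_simp

theorem hasDerivAt_pw (y : ℝ) (k : ℕ) (d : ℝ) :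
    HasDerivAt (fun d : ℝ => ((y : ℂ) - I * d) ^ k) (-(k : ℂ) * I * ((y : ℂ) - I * d) ^ (k - 1)) d := by
  have h1 : HasDerivAt (fun d : ℝ => (y : ℂ) - I * d) (-(I * 1)) d :=
    ((hasDerivAt_ofReal' d).const_mul I).const_sub _
  refine (h1.pow k).congr_deriv ?_
  ring

/-- integration by parts -/
theorem stein {v : ℝ} (hv : 0 < v) (y : ℝ) (k : ℕ) :
    Integrable (fun d : ℝ => (d : ℂ) * (((y : ℂ) - I * d) ^ k * ga v d)) ∧
    ∫ d : ℝ, (d : ℂ) * (((y : ℂ) - I * d) ^ k * ga v d) = -(k : ℂ) * I * v * hn v y (k - 1) := by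
  have hvC : (v : ℂ) ≠ 0 := by exact_mod_cast hv.ne'
  have hint : Integrable (fun d : ℝ => (d : ℂ) * (((y : ℂ) - I * d) ^ k * ga v d)) := by
    have e : ∀ d : ℝ, (d : ℂ) * (((y : ℂ) - I * d) ^ k * ga v d) =
        (-I) * (y * (((y : ℂ) - I * d) ^ k * ga v d)) + I * (((y : ℂ) - I * d) ^ (k + 1) * ga v d) := by
      intro d
      have h : (d : ℂ) = (-I) * y + I * (y - I * d) := by
        have := I_mul_I
        linear_combination (d : ℂ) * this
      rw [pow_succ]
      linear_combination (((y : ℂ) - I * d) ^ k * ga v d) * h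
    simp only [e]
    exact (((integrable_hn hv y k).const_mul _).const_mul _).add ((integrable_hn hv y (k + 1)).const_mul _)
  refine ⟨hint, ?_⟩
  have hder : ∀ d : ℝ, HasDerivAt (fun d : ℝ => ((y : ℂ) - I * d) ^ k * ga v d)
      ((-(k : ℂ) * I) * (((y : ℂ) - I * d) ^ (k - 1) * ga v d) +
        (-(1 / (v : ℂ))) * ((d : ℂ) * (((y : ℂ) - I * d) ^ k * ga v d))) d := by
    intro d
    refine ((hasDerivAt_pw y k d).mul (hasDerivAt_ga hv d)).congr_deriv ?_
    rw [neg_div, div_eq_mul_one_div (d : ℂ)]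
    ring
  have h1 := integral_eq_zero_of_hasDerivAt_of_integrable hder
    (((integrable_hn hv y (k - 1)).const_mul _).add (hint.const_mul _)) (integrable_hn hv y k)
  rw [integral_add ((integrable_hn hv y (k - 1)).const_mul _) (hint.const_mul _),
    integral_const_mul, integral_const_mul] at h1
  change (-(k : ℂ) * I) * hn v y (k - 1) + _ = 0 at h1
  have h2 : (v : ℂ) * (1 / (v : ℂ)) = 1 := by field_simp
  linear_combination (-(v : ℂ)) * h1 - (∫ d : ℝ, (d : ℂ) * (((y : ℂ) - I * d) ^ k * ga v d)) * h2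

theorem hn_zero {v : ℝ} (hv : 0 < v) (y : ℝ) : hn v y 0 = 1 := by
  unfold hn
  simp only [pow_zero, one_mul]
  exact integral_ga hv

theorem hn_succ {v : ℝ} (hv : 0 < v) (y : ℝ) (k : ℕ) :
    hn v y (k + 1) = y * hn v y k - v * k * hn v y (k - 1) := by
  obtain ⟨h1, h2⟩ := stein hv y k
  have e : ∀ d : ℝ, ((y : ℂ) - I * d) ^ (k + 1) * ga v d =
      y * (((y : ℂ) - I * d) ^ k * ga v d) + (-I) * ((d : ℂ) * (((y : ℂ) - I * d) ^ k * ga v d)) := by
    intro d
    ring
  have h3 : hn v y (k + 1) = y * hn v y k +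
      (-I) * ∫ d : ℝ, (d : ℂ) * (((y : ℂ) - I * d) ^ k * ga v d) := by
    unfold hn
    simp only [e]
    rw [integral_add ((integrable_hn hv y k).const_mul _) (h1.const_mul _), integral_const_mul,
      integral_const_mul]
  rw [h3, h2]
  have := I_mul_I
  linear_combination (k : ℂ) * v * hn v y (k - 1) * this

theorem hn_im {v : ℝ} (hv : 0 < v) (y : ℝ) (k : ℕ) : (hn v y k).im = 0 := by
  induction k using Nat.strong_induction_on with
  | _ k ih =>
    rcases k with _ | k
    · rw [hn_zero hv]; simp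
    · rw [hn_succ hv]
      have h1 := ih k (by omega)
      have h2 := ih (k - 1) (by omega)
      have e : (v : ℂ) * k = ((v * k : ℝ) : ℂ) := by push_cast; ring
      rw [e]
      simp [h1, h2]

theorem st_b1 : St_B1 := fun _ hv y k => ⟨integrable_hn hv y k, hn_im hv y k⟩

theorem H_zero {v : ℝ} (hv : 0 < v) (y : ℝ) : (hn v y 0).re = 1 := by
  rw [hn_zero hv]; simp

theorem H_succ {v : ℝ} (hv : 0 < v) (y : ℝ) (k : ℕ) :
    (hn v y (k + 1)).re = y * (hn v y k).re - v * k * (hn v y (k - 1)).re := by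
  rw [hn_succ hv]
  have e : (v : ℂ) * k = ((v * k : ℝ) : ℂ) := by push_cast; ring
  rw [e]
  simp

theorem st_b2 : St_B2 := by
  intro v y hv hy n hn4
  have key : ∀ k : ℕ, k ≤ n → 0 < (hn v y k).re ∧ (hn v y k).re ≤ y ^ k ∧
      0 < (hn v y (k - 1)).re ∧ (1 ≤ k → y / 2 * (hn v y (k - 1)).re ≤ (hn v y k).re) := by
    intro k
    induction k with
    | zero =>
      intro _
      rw [H_zero hv]
      simp
    | succ k ih =>
      intro hk
      obtain ⟨h1, h2, h5, h3⟩ := ih (by omega)
      have hs := H_succ hv y k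
      have hkn : 4 * v * (k + 1 : ℕ) ≤ y ^ 2 :=
        le_trans (mul_le_mul_of_nonneg_left (by exact_mod_cast hk) (by positivity)) hn4
      push_cast at hkn
      have hprev : 0 ≤ v * k * (hn v y (k - 1)).re ∧
          v * k * (hn v y (k - 1)).re ≤ y / 2 * (hn v y k).re := by
        rcases Nat.eq_zero_or_pos k with rfl | hk0
        · simp only [Nat.cast_zero, mul_zero, zero_mul, le_refl, true_and]
          positivity
        · have h4 := h3 hk0
          refine ⟨by positivity, ?_⟩
          have h7 : v * k ≤ y / 2 * (y / 2) := by nlinarith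
          have h6 : v * k * (hn v y (k - 1)).re ≤ y / 2 * (y / 2) * (hn v y (k - 1)).re :=
            mul_le_mul_of_nonneg_right h7 h5.le
          have h8 := mul_le_mul_of_nonneg_left h4 (by positivity : 0 ≤ y / 2)
          linarith
      have h9 : 0 < y * (hn v y k).re := by positivity
      refine ⟨?_, ?_, ?_, fun _ => ?_⟩
      · rw [hs]
        linarith [hprev.2]
      · rw [hs, pow_succ]
        linarith [hprev.1, mul_le_mul_of_nonneg_left h2 hy.le]
      · rw [Nat.add_sub_cancel]
        exact h1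
      · rw [hs, Nat.add_sub_cancel]
        linarith [hprev.2]
  exact ⟨(key n le_rfl).1, (key n le_rfl).2.1⟩

theorem exp_le_one_sub {t η : ℝ} (ht0 : 0 ≤ t) (ht : t ≤ η) (hη : η ≤ 1 / 2) :
    Real.exp (-(t / (1 - η))) ≤ 1 - t := by
  have h1 : 0 < 1 - t := by linarith
  have h2 : 0 < 1 - η := by linarith
  have h3 : t / (1 - t) ≤ t / (1 - η) := div_le_div_of_nonneg_left ht0 h2 (by linarith)
  have h4 : 1 / (1 - t) ≤ Real.exp (t / (1 - η)) := by
    have e : 1 / (1 - t) = t / (1 - t) + 1 := by field_simp; ring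
    rw [e]
    exact (add_le_add_left h3 1).trans (Real.add_one_le_exp _)
  rw [Real.exp_neg]
  rw [div_le_iff₀ h1] at h4
  rw [inv_le_iff_one_le_mul₀ (Real.exp_pos _)]
  linarith

theorem st_b3 : St_B3 := by
  intro v y η hv hy hη hη2 n hvn
  have h1η : 0 < 1 - η := by linarith
  have key : ∀ k : ℕ, k ≤ n → y ^ k * Real.exp (-(v * k ^ 2 / (2 * (1 - η) ^ 2 * y ^ 2))) ≤ (hn v y k).re ∧
      0 < (hn v y k).re ∧ 0 < (hn v y (k - 1)).re ∧
      (1 ≤ k → (1 - η) * y * (hn v y (k - 1)).re ≤ (hn v y k).re) := by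
    intro k
    induction k with
    | zero =>
      intro _
      rw [H_zero hv]
      simp
    | succ k ih =>
      intro hk
      obtain ⟨h2, h1, h5, h3⟩ := ih (by omega)
      have hs := H_succ hv y k
      have hkn : v * k ≤ η * (1 - η) * y ^ 2 :=
        le_trans (mul_le_mul_of_nonneg_left (by exact_mod_cast (by omega : k ≤ n)) hv.le) hvn
      obtain ⟨t, ht⟩ : ∃ t : ℝ, t = v * k / ((1 - η) * y ^ 2) := ⟨_, rfl⟩
      have ht0 : 0 ≤ t := by rw [ht]; positivity
      have htη : t ≤ η := by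
        rw [ht, div_le_iff₀ (by positivity)]
        linarith
      have hvk : v * k = t * (1 - η) * y ^ 2 := by
        rw [ht]; field_simp
      have hprev : v * k * (hn v y (k - 1)).re ≤ t * y * (hn v y k).re := by
        rcases Nat.eq_zero_or_pos k with hk0 | hk0
        · rw [hk0]
          simp only [Nat.cast_zero, mul_zero, zero_mul]
          subst hk0
          positivity
        · have h4 := h3 hk0
          rw [hvk]
          have h8 := mul_le_mul_of_nonneg_left h4 (by positivity : 0 ≤ t * y)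
          linarith
      have h6 : y * (1 - t) * (hn v y k).re ≤ (hn v y (k + 1)).re := by
        rw [hs]
        linarith
      have h7 : 0 < y * (1 - t) * (hn v y k).re := by
        have : 0 < 1 - t := by linarith
        positivity
      refine ⟨?_, h7.trans_le h6, ?_, fun _ => ?_⟩
      · refine le_trans ?_ h6
        have h8 := exp_le_one_sub ht0 htη hη2
        have h9 : y * Real.exp (-(t / (1 - η))) *
            (y ^ k * Real.exp (-(v * k ^ 2 / (2 * (1 - η) ^ 2 * y ^ 2)))) ≤ y * (1 - t) * (hn v y k).re := by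
          refine mul_le_mul ?_ h2 (by positivity) ?_
          · exact mul_le_mul_of_nonneg_left h8 hy.le
          · have : 0 < 1 - t := by linarith
            positivity
        refine le_trans ?_ h9
        have e : y * Real.exp (-(t / (1 - η))) *
            (y ^ k * Real.exp (-(v * k ^ 2 / (2 * (1 - η) ^ 2 * y ^ 2)))) =
            y ^ (k + 1) * Real.exp (-(t / (1 - η)) + -(v * k ^ 2 / (2 * (1 - η) ^ 2 * y ^ 2))) := by
          rw [Real.exp_add, pow_succ]; ring
        rw [e]
        refine mul_le_mul_of_nonneg_left (Real.exp_le_exp.2 ?_) (by positivity)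
        have e1 : t / (1 - η) = v * (2 * k) / (2 * (1 - η) ^ 2 * y ^ 2) := by
          rw [ht]; field_simp
        rw [e1, ← neg_add, neg_le_neg_iff, ← add_div]
        refine div_le_div_of_nonneg_right ?_ (by positivity)
        push_cast
        nlinarith
      · rw [Nat.add_sub_cancel]
        exact h1
      · rw [Nat.add_sub_cancel]
        refine le_trans ?_ h6
        have : 0 ≤ y * (hn v y k).re := by positivity
        nlinarith
  exact (key n le_rfl).1

end Pool.Agent.Helper8.LQ
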