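import Pool.Agent.Helper82.LQ.D
import Pool.Agent.Helper75.LQ.Stl

/-! Packages Sl_D3 and Sl_D4 (local version of D3, D4). -/

set_option autoImplicit false

open Complex MeasureTheory Filter Topology

namespace Pool.Agent.Helper8.LQ

open Pool.Agent.Helper75.LQ Pool.Agent.Helper82.LQ

theorem gl_ev {A : ℝ} {g : ℕ → ℂ → ℂ} {L : ℕ → ℝ} (h : TL A g L) {c : ℝ} (hc : 32 ≤ c) :
    ∀ᶠ j in atTop, 1 ≤ L j ∧ 0 < vv c L j ∧ vv c L j ≤ 1 / 10 ∧ Gr (g j) (vv c L j) := by
  obtain ⟨B, hB⟩ := h.glob 1 one_pos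
  filter_upwards [hB, h.lim.eventually_ge_atTop 1] with j hj hL
  have hc0 : 0 < c := by linarith
  have hL0 : 0 < L j := by linarith
  have hpos : 0 < vv c L j := by unfold vv; positivity
  refine ⟨hL, hpos, ?_, ?_⟩
  · unfold vv
    exact one_div_le_one_div_of_le (by norm_num) (by nlinarith)
  · refine ⟨Real.exp (L j * B), L j, (Real.exp_pos _).le, hL0.le, ?_, fun z => ?_⟩
    · unfold vv
      have e : 32 * L j * (1 / (c * L j)) = 32 / c := by
        field_simp
      rw [e, div_le_one hc0]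
      exact hc
    · refine (hj z).trans (le_of_eq ?_)
      rw [← Real.exp_add]
      congr 1
      ring

theorem sl_d4 (hC1 : Sl_C1) (hC3 : Sl_C3) : Sl_D4 := by
  intro A g L h
  obtain ⟨c1, hc1⟩ := hC1 A g L h
  obtain ⟨c3, hc3⟩ := hC3 A g L h
  refine ⟨max (max c1 c3) 32, fun c hc η hη R => ?_⟩
  have hcc1 : c1 ≤ c := (le_max_left _ _).trans ((le_max_left _ _).trans hc)
  have hcc3 : c3 ≤ c := (le_max_right _ _).trans ((le_max_left _ _).trans hc)
  have hc32 : 32 ≤ c := (le_max_right _ _).trans hc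
  have hc0 : 0 < c := by linarith
  have hbig : ∀ᶠ j in atTop, 2 * Real.log 4 / η ≤ L j := h.lim.eventually_ge_atTop _
  filter_upwards [hc1 c hcc1 (η / 2) (by positivity) (R + 1), hc3 c hcc3 (|R| + 1), gl_ev h hc32, hbig]
    with j h1 h3 hj hLb s y b σ hs hy1 hy2 hb hσ
  obtain ⟨hL, hv, hv', hg⟩ := hj
  have hR : R ≤ |R| := le_abs_self R
  have hA := h.A0
  have hyab : |y| ≤ 2 := by
    rw [abs_le]
    constructor <;> linarith
  set v := vv c L j with hvdef
  set E : ℝ := Real.exp (L j * (2 * A + η / 2)) with hE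
  have hEpos : 0 < E := Real.exp_pos _
  have hN : ∀ a : ℝ, |a| ≤ 1 → -E ≤ (nn (g j) (v / 2) (s - a) y).re := by
    intro a ha
    refine h1 (s - a) y ?_ hy1 hy2
    calc |s - a| ≤ |s| + |a| := abs_sub _ _
      _ ≤ R + 1 := by linarith
  have hcore := d4_core (h.re j) (h.ent j) hv hg (b := b) (σ := σ) hEpos.le hN
    (h3 s y b σ (by linarith) hyab hb hσ) (h3 s y 0 0 (by linarith) hyab (by norm_num) (by norm_num))
  refine hcore.trans ?_
  have e1 : (2 * |b| + σ ^ 2) / v = L j * (c * σ ^ 2 + 2 * c * |b|) := by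
    rw [hvdef]
    unfold vv
    have : L j ≠ 0 := by linarith
    field_simp
    ring
  rw [e1]
  set P := Real.exp (L j * (c * σ ^ 2 + 2 * c * |b|)) with hP
  have hP1 : 1 ≤ P := by
    refine Real.one_le_exp ?_
    have : 0 ≤ |b| := abs_nonneg b
    positivity
  have hE4 : 4 * E ≤ Real.exp (L j * (2 * A + η)) := by
    have e2 : Real.exp (L j * (2 * A + η)) = E * Real.exp (L j * (η / 2)) := by
      rw [hE, ← Real.exp_add]
      congr 1
      ring
    rw [e2, mul_comm 4 E]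
    refine mul_le_mul_of_nonneg_left ?_ hEpos.le
    have h5 : Real.log 4 ≤ L j * (η / 2) := by
      rw [div_le_iff₀ hη] at hLb
      linarith
    calc (4 : ℝ) = Real.exp (Real.log 4) := (Real.exp_log (by norm_num)).symm
      _ ≤ _ := Real.exp_le_exp.2 h5
  have hE1 : 1 ≤ E := Real.one_le_exp (by positivity)
  have hF : 0 ≤ ‖F (g j) v (s + I * y)‖ ^ 2 := by positivity
  nlinarith [mul_le_mul_of_nonneg_left hE4 (zero_le_one.trans hP1), mul_le_mul_of_nonneg_left hE1 (zero_le_one.trans hP1)]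

theorem sl_d3 (hC2 : Sl_C2) (hC3 : Sl_C3) : Sl_D3 := by
  intro A g L h τ hτ
  obtain ⟨c2, hc2⟩ := hC2 A g L h τ hτ
  obtain ⟨c3, hc3⟩ := hC3 A g L h
  have hA := h.A0
  refine ⟨max (max c2 c3) (max 32 ((1 / 4 + 2 * τ) / (2 * A))), fun c hc R => ?_⟩
  have hcc2 : c2 ≤ c := (le_max_left _ _).trans ((le_max_left _ _).trans hc)
  have hcc3 : c3 ≤ c := (le_max_right _ _).trans ((le_max_left _ _).trans hc)
  have hc32 : 32 ≤ c := (le_max_left _ _).trans ((le_max_right _ _).trans hc)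
  have hcA : (1 / 4 + 2 * τ) / (2 * A) ≤ c := (le_max_right _ _).trans ((le_max_right _ _).trans hc)
  have hc0 : 0 < c := by linarith
  have hcA' : (1 / 4 + 2 * τ) / c ≤ 2 * A := by
    rw [div_le_iff₀ (by positivity)] at hcA ⊢
    linarith
  have hbig : ∀ᶠ j in atTop, c * Real.log 4 / τ ≤ L j := h.lim.eventually_ge_atTop _
  filter_upwards [hc2 c hcc2 (R + 1), hc3 c hcc3 (|R| + 1), gl_ev h hc32, hbig]
    with j h2 h3 hj hLb z hz hy1 hy2
  obtain ⟨hL, hv, hv', hg⟩ := hj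
  have hR : R ≤ |R| := le_abs_self R
  set v := vv c L j with hvdef
  have hτc : 0 < (1 / 2 + τ) / c := by positivity
  have hyab : |z.im| ≤ 2 := by
    rw [abs_le]
    constructor <;> linarith
  set m : ℝ := Real.exp (L j * (z.im - (1 / 4 + τ) / c)) with hm
  have hN : ∀ a : ℝ, |a| ≤ 1 → m ≤ (nn (g j) (v / 2) (z.re - a) z.im).re := by
    intro a ha
    refine h2 (z.re - a) z.im ?_ hy1 hy2
    calc |z.re - a| ≤ |z.re| + |a| := abs_sub _ _
      _ ≤ R + 1 := by linarith
  have hcore := d3_core (h.re j) (h.ent j) hv hg (s := z.re) (y := z.im) hv' (Real.exp_pos _).le hN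
    (h3 z.re z.im 0 0 (by linarith) hyab (by norm_num) (by norm_num))
  have ez : (z.re : ℂ) + I * z.im = z := by
    rw [mul_comm]
    exact Complex.re_add_im z
  rw [ez] at hcore
  set X : ℝ := Real.exp (L j * (z.im / 2 - (1 / 8 + τ) / c)) with hX
  have hX0 : 0 < X := Real.exp_pos _
  have hX2 : X ^ 2 * 4 ≤ m := by
    have e1 : m = X ^ 2 * Real.exp (L j * (τ / c)) := by
      rw [hm, hX, ← Real.exp_nat_mul, ← Real.exp_add]
      congr 1
      push_cast
      ring
    rw [e1]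
    refine mul_le_mul_of_nonneg_left ?_ (by positivity)
    have h5 : Real.log 4 ≤ L j * (τ / c) := by
      rw [div_le_iff₀ hτ] at hLb
      rw [← mul_div_assoc, le_div_iff₀ hc0]
      linarith
    calc (4 : ℝ) = Real.exp (Real.log 4) := (Real.exp_log (by norm_num)).symm
      _ ≤ _ := Real.exp_le_exp.2 h5
  have hX1 : 1 ≤ X := by
    refine Real.one_le_exp (mul_nonneg (by linarith) ?_)
    have e : (1 / 4 + 2 * τ) / c = 2 * ((1 / 8 + τ) / c) := by ring
    rw [e] at hcA'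
    linarith
  have h6 : X ^ 2 ≤ ‖F (g j) v z‖ ^ 2 := by nlinarith
  exact (pow_le_pow_iff_left₀ hX0.le (norm_nonneg _) two_ne_zero).1 h6

end Pool.Agent.Helper8.LQ
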