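import Pool.Agent.Helper75.LQ.Lin
import Pool.Agent.Helper59.LQ.ZG
import Pool.Agent.Helper85.LQ.Line

/-! Package L5: the refined global bound for `xi`. -/

set_option autoImplicit false
set_option maxHeartbeats 1000000

open Complex Filter Topology Set
open Pool.Agent.H306R2 (Zt zeta_eq_pos)

namespace Pool.Agent.Helper8.LQ

open Pool.Agent.Helper75.LQ Pool.Agent.Helper85.LG Pool.Agent.Helper75.JE Pool.Agent.Helper59.LQ
open Pool.Agent.Helper85.LQ (zt_line)

/-- `(s - 1) ζ(s)` in the half plane -/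
theorem zt_all {A : ℝ} (hA0 : 0 ≤ A) (hA1 : A ≤ 1 / 2) (hU : UpA A) {ε : ℝ} (hε : 0 < ε) (hε1 : ε ≤ 1) :
    ∃ D : ℝ, 1 ≤ D ∧ ∀ x : ℝ, 4 ≤ x → ∀ (w : ℂ), 0 ≤ w.re →
      ‖Zt (1 / 2 + w + x * I)‖ ≤ D * Real.exp ((1 + A + ε) * Real.log x + 2 * ‖w‖ + 1) := by
  obtain ⟨D, hD0, hD⟩ := zt_line hA0 hU hε
  obtain ⟨B, hB1, hB⟩ := zeta_two_sided (σ := 2) (by norm_num)
  refine ⟨D + B, by linarith, fun x hx w hw => ?_⟩
  have hx0 : 0 < x := by linarith
  have hlx : 0 ≤ Real.log x := Real.log_nonneg (by linarith)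
  obtain ⟨r, hr⟩ : ∃ r : ℝ, r = ‖w‖ := ⟨_, rfl⟩
  have hr0 : 0 ≤ r := by rw [hr]; exact norm_nonneg w
  have hre : |w.re| ≤ r := by rw [hr]; exact Complex.abs_re_le_norm w
  have him : |w.im| ≤ r := by rw [hr]; exact Complex.abs_im_le_norm w
  rw [← hr]
  obtain ⟨z, hz⟩ : ∃ z : ℂ, z = 1 / 2 + w + x * I := ⟨_, rfl⟩
  rw [← hz]
  have hzre : z.re = 1 / 2 + w.re := by rw [hz]; simp
  have hzim : z.im = w.im + x := by rw [hz]; simp
  have h1 : ∀ c : ℝ, |c| ≤ 1 → ‖z + c‖ ≤ x + 2 * r + 3 / 2 := by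
    intro c hc
    refine (Complex.norm_le_abs_re_add_abs_im _).trans ?_
    rw [add_re, add_im, hzre, hzim, ofReal_re, ofReal_im, add_zero]
    have a1 : |1 / 2 + w.re + c| ≤ 1 / 2 + r + 1 := by
      refine (abs_add_le _ _).trans ?_
      refine add_le_add ((abs_add_le _ _).trans ?_) hc
      rw [abs_of_nonneg (by norm_num : (0 : ℝ) ≤ 1 / 2)]
      linarith
    have a2 : |w.im + x| ≤ r + x := by
      refine (abs_add_le _ _).trans ?_
      rw [abs_of_nonneg hx0.le]
      linarith
    linarith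
  have h2 : x + 2 * r + 3 / 2 ≤ Real.exp (Real.log x + (2 * r + 3 / 2) / 4) := by
    rw [Real.exp_add, Real.exp_log hx0]
    have h3 := Real.add_one_le_exp ((2 * r + 3 / 2) / 4)
    have h4 : x + 2 * r + 3 / 2 ≤ x * ((2 * r + 3 / 2) / 4 + 1) := by
      have : 0 ≤ (x - 4) * ((2 * r + 3 / 2) / 4) := by
        apply mul_nonneg (by linarith) (by positivity)
      linarith
    exact h4.trans (mul_le_mul_of_nonneg_left h3 hx0.le)
  have e1 : z + ((1 : ℝ) : ℂ) = z + 1 := by simp
  have e2 : z + ((-1 : ℝ) : ℂ) = z - 1 := by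
    push_cast; ring
  have n1 := (h1 1 (by norm_num)).trans h2
  have n2 := (h1 (-1) (by norm_num)).trans h2
  rw [e1] at n1
  rw [e2] at n2
  have hE : 0 < Real.exp ((1 + A + ε) * Real.log x + 2 * r + 1) := Real.exp_pos _
  rcases le_or_gt z.re 2 with h | h
  · have h5 := hD z (by rw [hzre]; linarith) h
    refine h5.trans ?_
    have h6 : ‖z + 1‖ ^ (1 + A + ε) ≤ Real.exp ((1 + A + ε) * Real.log x + 2 * r + 1) := by
      refine (Real.rpow_le_rpow (norm_nonneg _) n1 (by linarith)).trans ?_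
      rw [← Real.exp_mul]
      apply Real.exp_le_exp.2
      have h7 : (2 * r + 3 / 2) / 4 * (1 + A + ε) ≤ (2 * r + 3 / 2) / 4 * (5 / 2) :=
        mul_le_mul_of_nonneg_left (by linarith) (by positivity)
      linarith
    calc D * ‖z + 1‖ ^ (1 + A + ε) ≤ D * Real.exp ((1 + A + ε) * Real.log x + 2 * r + 1) :=
          mul_le_mul_of_nonneg_left h6 hD0
      _ ≤ _ := mul_le_mul_of_nonneg_right (by linarith) hE.le
  · have hne : z ≠ 1 := by
      intro h0
      rw [h0, one_re] at h
      norm_num at h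
    rw [← zeta_eq_pos (by linarith) hne, norm_mul]
    have h8 := (hB z h.le).1
    have h9 : ‖z - 1‖ ≤ Real.exp ((1 + A + ε) * Real.log x + 2 * r + 1) := by
      refine n2.trans (Real.exp_le_exp.2 ?_)
      have : 0 ≤ (A + ε) * Real.log x := by positivity
      linarith
    calc ‖z - 1‖ * ‖riemannZeta z‖ ≤ Real.exp ((1 + A + ε) * Real.log x + 2 * r + 1) * B :=
          mul_le_mul h9 h8 (norm_nonneg _) hE.le
      _ = B * Real.exp ((1 + A + ε) * Real.log x + 2 * r + 1) := by ring
      _ ≤ _ := mul_le_mul_of_nonneg_right (by linarith) hE.le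

theorem log_two_add {r : ℝ} (hr : 0 ≤ r) : Real.log (2 + r) ≤ 2 * Real.sqrt (1 + r) := by
  have hq : 0 < Real.sqrt (1 + r) := Real.sqrt_pos.2 (by linarith)
  have hq2 : Real.sqrt (1 + r) * Real.sqrt (1 + r) = 1 + r := Real.mul_self_sqrt (by linarith)
  have h1 : Real.log (2 + r) ≤ Real.log (2 * (Real.sqrt (1 + r) * Real.sqrt (1 + r))) := by
    apply Real.log_le_log (by linarith)
    rw [hq2]; linarith
  rw [Real.log_mul (by norm_num) (by positivity), Real.log_mul hq.ne' hq.ne'] at h1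
  have h2 := Real.log_le_sub_one_of_pos hq
  have h3 := Real.log_two_lt_d9
  linarith

theorem st_l5 : St_L5 := by
  obtain ⟨CV, hCV0, hV⟩ := Pg_vert
  obtain ⟨CH, hCH0, hH⟩ := Pg_hor
  refine ⟨CV + CH + 8, by linarith, fun A hA0 hA1 hU ε hε => ?_⟩
  obtain ⟨ε', hε'⟩ : ∃ ε' : ℝ, ε' = min (ε / 2) 1 := ⟨_, rfl⟩
  have he0 : 0 < ε' := by rw [hε']; positivity
  have he1 : ε' ≤ 1 := by rw [hε']; exact min_le_right _ _
  have he2 : ε' ≤ ε / 2 := by rw [hε']; exact min_le_left _ _
  obtain ⟨D, hD1, hD⟩ := zt_all hA0 hA1 hU he0 he1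
  have main : ∀ x : ℝ, max 4 (Real.exp ((1 + Real.log D) * (2 / ε))) ≤ x → ∀ w : ℂ, 0 ≤ w.re →
      ‖xi (1 / 2 + w + x * I)‖ ≤ Nx x * Real.exp (Real.log x * (A + ε + w.re / 2) +
        (CV + CH + 8) * ‖w‖ * Real.sqrt (1 + ‖w‖)) := by
    intro x hx w hw
    have hx4 := (le_max_left _ _).trans hx
    have hxe := (le_max_right _ _).trans hx
    have hx0 : 0 < x := by linarith
    have hlx : 0 ≤ Real.log x := Real.log_nonneg (by linarith)
    have hlogD : 0 ≤ Real.log D := Real.log_nonneg hD1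
    have hl2 : 1 + Real.log D ≤ ε / 2 * Real.log x := by
      have h1 := (Real.le_log_iff_exp_le hx0).2 hxe
      have h2 := mul_le_mul_of_nonneg_left h1 (by positivity : 0 ≤ ε / 2)
      have e : ε / 2 * ((1 + Real.log D) * (2 / ε)) = 1 + Real.log D := by field_simp
      linarith
    have hZ := hD x hx4 w hw
    obtain ⟨z, hz⟩ : ∃ z : ℂ, z = 1 / 2 + w + x * I := ⟨_, rfl⟩
    have hzre : z.re = 1 / 2 + w.re := by rw [hz]; simp
    have ez : z = ((1 / 2 + w.re : ℝ) : ℂ) + ((x + w.im : ℝ) : ℂ) * I := by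
      rw [hz]
      apply Complex.ext
      · simp
      · simp; ring
    obtain ⟨r, hr⟩ : ∃ r : ℝ, r = ‖w‖ := ⟨_, rfl⟩
    have hr0 : 0 ≤ r := by rw [hr]; exact norm_nonneg w
    have hre : w.re ≤ r := by rw [hr]; exact (le_abs_self _).trans (Complex.abs_re_le_norm w)
    have him : |w.im| ≤ r := by rw [hr]; exact Complex.abs_im_le_norm w
    rw [← hz, xi_eq (by rw [hzre]; linarith), norm_mul]
    rw [← hz, ← hr] at hZ
    rw [← hr]
    obtain ⟨q, hq⟩ : ∃ q : ℝ, q = Real.sqrt (1 + r) := ⟨_, rfl⟩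
    have hq1 : 1 ≤ q := by
      rw [hq]
      exact Real.one_le_sqrt.2 (by linarith)
    rw [← hq]
    have v1 := hV (1 / 2 + w.re) (by linarith) (x + w.im) x
    have h1 := (hH x (1 / 2) (1 / 2 + w.re) (by linarith) (by norm_num) (by linarith)).1
    rw [← ez, show x + w.im - x = w.im by ring] at v1
    rw [show 1 / 2 + w.re - 1 / 2 = w.re by ring] at h1
    have ex : (((1 / 2 : ℝ) : ℂ) + (x : ℂ) * I) = 1 / 2 + x * I := by push_cast; ring
    rw [ex] at h1
    have p0 : 0 < ‖Pg (1 / 2 + x * I)‖ := norm_pos_iff.2 (Pg_ne (by simp))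
    have hl : Real.log (x + (1 / 2 + w.re)) ≤ Real.log x + 2 * q := by
      have h4 : x + (1 / 2 + w.re) ≤ x * (2 + r) := by nlinarith
      have h5 := Real.log_le_log (by linarith) h4
      rw [Real.log_mul hx0.ne' (by linarith)] at h5
      have h6 := log_two_add hr0
      rw [← hq] at h6
      linarith
    have n3 : ‖Pg z‖ ≤ Real.exp (CV * r + w.re / 2 * Real.log x + CH * r + r * q) *
        ‖Pg (1 / 2 + x * I)‖ := by
      refine v1.trans ((mul_le_mul_of_nonneg_left h1 (Real.exp_pos _).le).trans ?_)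
      rw [← mul_assoc, ← Real.exp_add]
      apply mul_le_mul_of_nonneg_right _ p0.le
      apply Real.exp_le_exp.2
      have k1 : w.re / 2 * (CH + Real.log (x + (1 / 2 + w.re))) ≤
          w.re / 2 * (CH + (Real.log x + 2 * q)) :=
        mul_le_mul_of_nonneg_left (by linarith) (by linarith)
      have k2 : CV * |w.im| ≤ CV * r := mul_le_mul_of_nonneg_left him hCV0
      have k3 : w.re * q ≤ r * q := mul_le_mul_of_nonneg_right hre (by linarith)
      have k4 : w.re * CH ≤ r * CH := mul_le_mul_of_nonneg_right hre hCH0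
      have k5 : 0 ≤ r * CH := by positivity
      linarith
    unfold Nx
    calc ‖Zt z‖ * ‖Pg z‖ ≤ (D * Real.exp ((1 + A + ε') * Real.log x + 2 * r + 1)) *
          (Real.exp (CV * r + w.re / 2 * Real.log x + CH * r + r * q) * ‖Pg (1 / 2 + x * I)‖) :=
          mul_le_mul hZ n3 (norm_nonneg _) (by positivity)
      _ = x * ‖Pg (1 / 2 + x * I)‖ * Real.exp (Real.log D + (A + ε') * Real.log x + 2 * r + 1 +
          (CV * r + w.re / 2 * Real.log x + CH * r + r * q)) := by
          have e3 : Real.exp (Real.log D + (A + ε') * Real.log x + 2 * r + 1 +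
              (CV * r + w.re / 2 * Real.log x + CH * r + r * q)) =
              D * Real.exp ((A + ε') * Real.log x + 2 * r + 1) *
              Real.exp (CV * r + w.re / 2 * Real.log x + CH * r + r * q) := by
            rw [← Real.exp_log (show 0 < D by linarith), ← Real.exp_add, ← Real.exp_add, Real.log_exp]
            congr 1
            ring
          have e4 : Real.exp ((1 + A + ε') * Real.log x + 2 * r + 1) =
              x * Real.exp ((A + ε') * Real.log x + 2 * r + 1) := by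
            nth_rewrite 2 [← Real.exp_log hx0]
            rw [← Real.exp_add]
            congr 1
            ring
          rw [e3, e4]
          ring
      _ ≤ _ := by
          apply mul_le_mul_of_nonneg_left _ (by positivity)
          apply Real.exp_le_exp.2
          have k6 : (A + ε') * Real.log x ≤ (A + ε / 2) * Real.log x :=
            mul_le_mul_of_nonneg_right (by linarith) hlx
          have k7 : r ≤ r * q := by nlinarith
          have k8 : CV * r ≤ CV * (r * q) := mul_le_mul_of_nonneg_left k7 hCV0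
          have k9 : CH * r ≤ CH * (r * q) := mul_le_mul_of_nonneg_left k7 hCH0
          nlinarith
  refine ⟨max 4 (Real.exp ((1 + Real.log D) * (2 / ε))), fun x hx w => ?_⟩
  rcases le_total 0 w.re with h | h
  · rw [abs_of_nonneg h]
    exact main x hx w h
  · rw [xi_sym, abs_of_nonpos h]
    have h1 := main x hx (-(starRingEnd ℂ) w) (by simp; linarith)
    have e1 : (-(starRingEnd ℂ) w).re = -w.re := by simp
    rw [norm_neg, Complex.norm_conj, e1] at h1
    exact h1

end Pool.Agent.Helper8.LQ
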